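import Pool.Agent.MWA.StmtsP

/-! Row SFQ of squad MWA. -/

namespace Pool.Agent.MWA.H3

open Pool.Agent.MWA Pool.Agent.MWS Pool.Agent.Helper14_MV

theorem sfq (cpn : CpnStmt) (d2q : D2qStmt) (mjq : MjqStmt) (tlp : TlpStmt) (blq : BlqStmt)
    (dgp : DgpStmt) (gld : GldStmt) : SfqStmt := by
  intro n β hb ho hj
  have hcap : CapP β := cpn n β hb
  have hd2 : D2 β := d2q β hb.cl hb.r0 hcap
  have hmj2 : MJ2 β := mjq n β hb hcap ho hj
  have hmjb : MJB β := tlp β hd2 hmj2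
  have hmjn : MJN β := blq β hcap hmjb
  exact gld β (dgp n β hb hcap hmjn)

end Pool.Agent.MWA.H3
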