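import Pool.Agent.MWA.Stmts

/-! Row SFM of squad MWA. -/

namespace Pool.Agent.MWA.H3

open Pool.Agent.MWA Pool.Agent.MWS Pool.Agent.Helper14_MV

theorem sfm (ica : IcaStmt) (d2a : D2aStmt) (mja : MjaStmt) (tlp : TlpStmt) (blk : BlkStmt)
    (dgn : DgnStmt) (gld : GldStmt) : SfmStmt := by
  intro β hb ho hj
  have hap : ApI β := ica β hb
  have hd2 : D2 β := d2a β hb
  have hmj2 : MJ2 β := mja β hb ho hj
  have hmjb : MJB β := tlp β hd2 hmj2
  have hmjn : MJN β := blk β hap hmjb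
  exact gld β (dgn β hap hmjn)

end Pool.Agent.MWA.H3
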